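import Pool.Agent.J4H79.KT.Mnk

/-!
# Project KT (helper39), phase 2, job P5 (helper79): the passage to the window
-/

set_option autoImplicit false
set_option linter.all false

namespace Pool.Agent.J4H79.KT

open Pool.Agent.J4H39 Finset Filter Real

theorem mn_abs' {a : ℤ} {b : ℕ} {f g : ℤ → ℝ} {c : ℝ} (hb : 1 ≤ b)
    (h : ∀ z, a ≤ z → z < a + b → |f z - g z| ≤ c) : |mn a b f - mn a b g| ≤ c := by
  have h1 := mn_near (a := a) (f := fun z => f z - g z) (c := 0) (e := c) hb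
    (fun z hz1 hz2 => by rw [sub_zero]; exact h z hz1 hz2)
  have e1 : mn a b (fun z => f z - g z) = mn a b f - mn a b g := by
    unfold mn
    rw [← sub_div, ← sum_sub_distrib]
  rwa [e1, sub_zero] at h1

/-- the cut into blocks, for fixed numbers -/
theorem cut {K N H b M G : ℕ} (x : ℤ) {F : (Fin (K + 1) → ℤ) → ℝ} (h0 : ∀ v, 0 ≤ F v)
    (h1 : ∀ v, F v ≤ 1) (hN : 1 ≤ N) (hH : 1 ≤ H) (hb : 1 ≤ b) (hM : (M + 1) * b ≤ N)
    (hG1 : 1 ≤ G) (hG : (G + 1) * b ≤ H) {E e : ℝ}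
    (hE : ∀ γ : Fin K → ℤ, (∀ i, 0 ≤ γ i ∧ γ i < G) →
      |(∑ p ∈ range (M + 1), mnK (K + 1)
        (fun i => x + (Fin.cons 0 (fun j => γ j + 1) : Fin (K + 1) → ℤ) i * b + (p : ℕ) * b)
        (fun _ => b) F) / (M + 1) - E| ≤ e) :
    |mn x N (fun n => mnK K (fun _ => n + 1) (fun _ => H) (fun u => F (Fin.cons n u))) - E| ≤
      ((N : ℝ) - ((M + 1) * b : ℕ)) / N + K * (((H : ℝ) - (G * b : ℕ)) / H) + e := by
  have hHr : (0 : ℝ) < H := by exact_mod_cast hH
  obtain ⟨Φ, hΦ⟩ : ∃ Φ : ℤ → ℝ, Φ = fun n => mnK K (fun _ => n + 1) (fun _ => H)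
    (fun u => F (Fin.cons n u)) := ⟨_, rfl⟩
  have hGH : G * b ≤ H := by
    have : (G + 1) * b = G * b + b := by ring
    omega
  have hd : (0 : ℝ) ≤ K * (((H : ℝ) - (G * b : ℕ)) / H) := by
    have : ((G * b : ℕ) : ℝ) ≤ H := by exact_mod_cast hGH
    have : (0 : ℝ) ≤ (H : ℝ) - (G * b : ℕ) := by linarith
    positivity
  -- the window
  have s1 := mn_sub (a := x) (a' := x) (b := N) (b' := (M + 1) * b) (f := Φ)
    (fun z => by rw [hΦ]; exact mnK_nonneg fun v => h0 _)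
    (fun z => by rw [hΦ]; exact mnK_le_one fun v => h1 _) le_rfl
    (by
      have : (((M + 1) * b : ℕ) : ℤ) ≤ N := by exact_mod_cast hM
      omega) hN
  -- the blocks
  have s2 : |mn x ((M + 1) * b) Φ - mn 0 (M + 1) (fun p => mn (x + p * b) b (fun n =>
      mnK K (fun _ => x + p * b + b) (fun _ => G * b) (fun u => F (Fin.cons n u))))| ≤
      K * (((H : ℝ) - (G * b : ℕ)) / H) := by
    rw [mn_blocks]
    apply mn_abs' (by omega)
    intro p hp1 hp2
    apply mn_abs' hb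
    intro n hn1 hn2
    rw [hΦ]
    apply mnK_sub (fun v => h0 _) (fun v => h1 _) (by omega) _ hH
    have e1 : (((G + 1) * b : ℕ) : ℤ) ≤ H := by exact_mod_cast hG
    have e2 : (((G + 1) * b : ℕ) : ℤ) = ((G * b : ℕ) : ℤ) + b := by push_cast; ring
    omega
  have s3 : mn 0 (M + 1) (fun p => mn (x + p * b) b (fun n =>
      mnK K (fun _ => x + p * b + b) (fun _ => G * b) (fun u => F (Fin.cons n u)))) =
      mnK K (fun _ => 0) (fun _ => G) (fun γ => (∑ p ∈ range (M + 1), mnK (K + 1)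
        (fun i => x + (Fin.cons 0 (fun j => γ j + 1) : Fin (K + 1) → ℤ) i * b + (p : ℕ) * b)
        (fun _ => b) F) / (M + 1)) := by
    have e1 : ∀ p : ℤ, mn (x + p * b) b (fun n =>
        mnK K (fun _ => x + p * b + b) (fun _ => G * b) (fun u => F (Fin.cons n u))) =
        mnK K (fun _ => 0) (fun _ => G) (fun γ => mn (x + p * b) b (fun n =>
          mnK K (fun i => x + p * b + b + γ i * b) (fun _ => b) (fun u => F (Fin.cons n u)))) := by
      intro p
      rw [← mn_mnK]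
      apply mn_congr
      intro n
      exact mnK_blocks _ _ _ _
    rw [mn_congr e1, mn_mnK]
    apply mnK_congr
    intro γ
    have e2 : ∀ p : ℤ, mn (x + p * b) b (fun n =>
        mnK K (fun i => x + p * b + b + γ i * b) (fun _ => b) (fun u => F (Fin.cons n u))) =
        mnK (K + 1) (fun i => x + (Fin.cons 0 (fun j => γ j + 1) : Fin (K + 1) → ℤ) i * b + p * b)
        (fun _ => b) F := by
      intro p
      show _ = mn (x + (Fin.cons 0 (fun j => γ j + 1) : Fin (K + 1) → ℤ) 0 * b + p * b) b (fun n =>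
        mnK K (fun i => x + (Fin.cons 0 (fun j => γ j + 1) : Fin (K + 1) → ℤ) i.succ * b + p * b)
          (fun _ => b) (fun u => F (Fin.cons n u)))
      simp only [Fin.cons_zero, Fin.cons_succ]
      have e3 : ∀ i, x + p * (b : ℤ) + b + γ i * b = x + (γ i + 1) * b + p * b := fun i => by ring
      rw [zero_mul, add_zero]
      apply mn_congr
      intro n
      rw [funext e3]
    rw [mn_congr e2]
    unfold mn
    congr 1
    · apply sum_congr rfl
      intro p _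
      rw [zero_add]
    · push_cast; ring
  have s4 := mnK_near (K := K) (a := fun _ => 0) (b := fun _ => G) (c := E) (e := e)
    (F := fun γ => (∑ p ∈ range (M + 1), mnK (K + 1)
        (fun i => x + (Fin.cons 0 (fun j => γ j + 1) : Fin (K + 1) → ℤ) i * b + (p : ℕ) * b)
        (fun _ => b) F) / (M + 1)) (fun _ => hG1) (fun γ hγ => hE γ fun i => ⟨(hγ i).1, by
          have := (hγ i).2
          omega⟩)
  rw [s3] at s2
  have a1 := abs_sub_le (mn x N Φ) (mn x ((M + 1) * b) Φ) E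
  have a2 := abs_sub_le (mn x ((M + 1) * b) Φ) (mnK K (fun _ => 0) (fun _ => G)
    (fun γ => (∑ p ∈ range (M + 1), mnK (K + 1)
        (fun i => x + (Fin.cons 0 (fun j => γ j + 1) : Fin (K + 1) → ℤ) i * b + (p : ℕ) * b)
        (fun _ => b) F) / (M + 1))) E
  rw [hΦ] at a1 a2 s1 s2
  linarith

theorem t_WIN : S_PARK → S_KLF → S_WIN := by
  intro hPAR hKLF K θ τ hθ hθ1 hτθ hτ1 ε hε K₀
  have hth0 := th0_pos
  have hτ : 0 < τ := by
    by_contra hcon
    push Not at hcon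
    have : τ * th0 ≤ 0 := mul_nonpos_of_nonpos_of_nonneg hcon hth0.le
    linarith
  obtain ⟨C, hC, hpar⟩ := hPAR (K + 1) θ τ hθ hθ1 hτθ hτ1
  obtain ⟨W, hW⟩ : ∃ W, W = 1 + θ / (τ * th0 ^ 2) := ⟨_, rfl⟩
  have hW0 : 0 < W := by rw [hW]; positivity
  have hK1 : (0 : ℝ) < K + 1 := by positivity
  obtain ⟨ε₁, hε₁⟩ : ∃ ε₁, ε₁ = min (min (ε / (48 * (K + 1))) (1 / 4)) (ε / W) := ⟨_, rfl⟩
  have hε₁0 : 0 < ε₁ := by
    rw [hε₁]
    apply lt_min
    · apply lt_min
      · positivity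
      · norm_num
    · positivity
  have hε₁1 : ε₁ * (48 * (K + 1)) ≤ ε := by
    have : ε₁ ≤ ε / (48 * (K + 1)) := by rw [hε₁]; exact (min_le_left _ _).trans (min_le_left _ _)
    rwa [le_div_iff₀ (by positivity)] at this
  have hε₁2 : ε₁ ≤ 1 / 4 := by rw [hε₁]; exact (min_le_left _ _).trans (min_le_right _ _)
  have hε₁3 : ε₁ * W ≤ ε := by
    have : ε₁ ≤ ε / W := by rw [hε₁]; exact min_le_right _ _
    rwa [le_div_iff₀ hW0] at this
  obtain ⟨ε₀, hε₀⟩ : ∃ ε₀, ε₀ = min (ε / (4 * (K + 1))) (1 / 2) := ⟨_, rfl⟩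
  have hε₀0 : 0 < ε₀ := by
    rw [hε₀]
    apply lt_min
    · positivity
    · norm_num
  have hε₀1 : ε₀ ≤ 1 / 2 := by rw [hε₀]; exact min_le_right _ _
  have hε₀2 : ε₀ * (4 * (K + 1)) ≤ ε := by
    have : ε₀ ≤ ε / (4 * (K + 1)) := by rw [hε₀]; exact min_le_left _ _
    rwa [le_div_iff₀ (by positivity)] at this
  obtain ⟨G₀, hG₀⟩ : ∃ G₀ : ℕ, G₀ = ⌈2 / ε₀⌉₊ := ⟨_, rfl⟩
  obtain ⟨n, hn, hev⟩ := hpar ε₁ ε₀ hε₁0 hε₁2 hε₀0 (by linarith) G₀ K₀
  have hH := HN_tendsto hθ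
  have hHr : Tendsto (fun N : ℕ => (HN θ N : ℝ)) atTop atTop := tendsto_natCast_atTop_atTop.comp hH
  filter_upwards [hev, hHr.eventually_ge_atTop (2 / ε₀), eventually_ge_atTop 1] with N hN hHN hN1
  obtain ⟨H, hHd⟩ : ∃ H, H = HN θ N := ⟨_, rfl⟩
  rw [← hHd] at hN hHN ⊢
  rw [div_le_iff₀ hε₀0] at hHN
  have hN0 : (0 : ℝ) < N := by exact_mod_cast hN1
  have hHN1 : H ≤ N := by
    have h1 : (H : ℝ) ≤ (N : ℝ) ^ θ := by rw [hHd]; exact Nat.floor_le (by positivity)
    have h2 : (N : ℝ) ^ θ ≤ (N : ℝ) ^ (1 : ℝ) := Real.rpow_le_rpow_of_exponent_le (by exact_mod_cast hN1) hθ1.le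
    rw [Real.rpow_one] at h2
    exact_mod_cast h1.trans h2
  have hH0 : (0 : ℝ) < H := by
    by_contra hcon
    push Not at hcon
    have : (H : ℝ) * ε₀ ≤ 0 := mul_nonpos_of_nonpos_of_nonneg hcon hε₀0.le
    linarith
  have hH1 : 1 ≤ H := by exact_mod_cast hH0
  obtain ⟨b, hb⟩ : ∃ b, b = ⌊ε₀ * H⌋₊ := ⟨_, rfl⟩
  have hb1 : (b : ℝ) ≤ ε₀ * H := by rw [hb]; exact Nat.floor_le (by positivity)
  have hb2 : ε₀ * H < b + 1 := by rw [hb]; exact Nat.lt_floor_add_one _
  have hb3 : ε₀ * H / 2 ≤ b := by linarith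
  have hb0 : 1 ≤ b := by
    have : (1 : ℝ) ≤ b := by linarith
    exact_mod_cast this
  have hbr : (1 : ℝ) ≤ b := by exact_mod_cast hb0
  have hb2H : 2 * b ≤ H := by
    have : 2 * (b : ℝ) ≤ H := by
      calc 2 * (b : ℝ) ≤ 2 * (ε₀ * H) := by linarith
        _ ≤ 2 * (1 / 2 * H) := by
            have := mul_le_mul_of_nonneg_right hε₀1 hH0.le
            linarith
        _ = H := by ring
    exact_mod_cast this
  have hbH : b ≤ H := by omega
  obtain ⟨s, hs⟩ : ∃ s, s = ⌊logb 2 (b : ℝ) / kn n⌋₊ := ⟨_, rfl⟩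
  -- numbers of blocks
  obtain ⟨M, hM⟩ : ∃ M, M + 1 = N / b := by
    have : 1 ≤ N / b := (Nat.one_le_div_iff (by omega)).2 (by omega)
    exact ⟨N / b - 1, by omega⟩
  obtain ⟨G, hG⟩ : ∃ G, G + 1 = H / b := by
    have : 1 ≤ H / b := (Nat.one_le_div_iff (by omega)).2 hbH
    exact ⟨H / b - 1, by omega⟩
  have hGpos : 1 ≤ G := by
    have : 2 ≤ H / b := (Nat.le_div_iff_mul_le (by omega)).2 hb2H
    omega
  have hM1 : (M + 1) * b ≤ N := by rw [hM]; exact Nat.div_mul_le_self N b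
  have hM2 : N < (M + 1) * b + b := by rw [hM]; exact Nat.lt_div_mul_add (by omega)
  have hG1 : (G + 1) * b ≤ H := by rw [hG]; exact Nat.div_mul_le_self H b
  have hG2 : H < (G + 1) * b + b := by rw [hG]; exact Nat.lt_div_mul_add (by omega)
  have hM1r : ((M : ℝ) + 1) * b ≤ N := by exact_mod_cast hM1
  have hM2r : (N : ℝ) ≤ (M + 1) * b + b := by exact_mod_cast hM2.le
  have hG1r : ((G : ℝ) + 1) * b ≤ H := by exact_mod_cast hG1
  have hG2r : (H : ℝ) ≤ (G + 1) * b + b := by exact_mod_cast hG2.le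
  obtain ⟨k, k', δ, R, k₁, htk, hPF, hk₁, hST, hGy, hK1', hK2, hsC, hrat⟩ := hN b s M hb hs (by
    have : (1 : ℝ) * b ≤ (M + 1) * b := mul_le_mul_of_nonneg_right (by
      have : (0 : ℝ) ≤ M := by positivity
      linarith) (by linarith)
    linarith)
  have hGG : G + 1 ≤ G₀ := by
    have h1 : ((G : ℝ) + 1) * b ≤ 2 / ε₀ * b := by
      refine hG1r.trans ?_
      calc (H : ℝ) = 2 / ε₀ * (ε₀ * H / 2) := by field_simp
        _ ≤ 2 / ε₀ * b := mul_le_mul_of_nonneg_left hb3 (by positivity)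
    have h2 : ((G : ℝ) + 1) ≤ 2 / ε₀ := le_of_mul_le_mul_right h1 (by linarith)
    have h3 : ((G : ℝ) + 1) ≤ G₀ := by rw [hG₀]; exact h2.trans (Nat.le_ceil _)
    exact_mod_cast h3
  refine ⟨s, k, htk, hK2, hK1', ?_, ?_⟩
  · have h1 := kn_gt n
    have h3 : |θ / (kn n * τ) - θ / (τ * th0)| ≤ ε₁ * (θ / (τ * th0 ^ 2)) := by
      have hkn : 0 < kn n := by linarith
      have e1 : θ / (kn n * τ) - θ / (τ * th0) = -((kn n - th0) * (θ / (τ * (kn n * th0)))) := by
        field_simp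
        ring
      rw [e1, abs_neg, abs_of_nonneg (mul_nonneg (by linarith) (by positivity))]
      apply mul_le_mul (by linarith) _ (by positivity) hε₁0.le
      apply div_le_div_of_nonneg_left hθ.le (by positivity)
      apply mul_le_mul_of_nonneg_left _ hτ.le
      rw [sq]
      exact mul_le_mul_of_nonneg_right h1.le hth0.le
    have := abs_sub_le ((s : ℝ) / (s + k)) (θ / (kn n * τ)) (θ / (τ * th0))
    have e2 : ε₁ * W = ε₁ + ε₁ * (θ / (τ * th0 ^ 2)) := by rw [hW]; ring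
    linarith
  · intro x g hg0 hg1
    have hfam : ∀ γ : Fin K → ℤ, (∀ i, 0 ≤ γ i ∧ γ i < G) →
        |(∑ p ∈ range (M + 1), mnK (K + 1)
          (fun i => x + (Fin.cons 0 (fun j => γ j + 1) : Fin (K + 1) → ℤ) i * b + (p : ℕ) * b)
          (fun _ => b) (fun v => ob (k + s) g (fun _ => 0) v)) / (M + 1) -
          exK s (K + 1) (fun y => Wd k g (fun i => od s (y i)))| ≤ 24 * (K + 1) * ε₁ := by
      intro γ hγ
      have h1 := hKLF (K + 1) n s k k' k₁ δ b M R G₀ ε₁ ε₁ ε₁ hPF hε₁0.le hk₁ hST x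
        (Fin.cons 0 (fun j => γ j + 1)) (by
          intro i
          refine Fin.cases ?_ (fun j => ?_) i
          · simp only [Fin.cons_zero, abs_zero]
            positivity
          · simp only [Fin.cons_succ]
            have := hγ j
            rw [abs_of_nonneg (by omega)]
            omega) g hg0 hg1
      refine h1.trans ?_
      push_cast
      have h2 : ((K : ℝ) + 1) * pb s (fun y => ¬ Gy s δ y) ≤ (K + 1) * ε₁ :=
        mul_le_mul_of_nonneg_left hGy hK1.le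
      have h3 : (0 : ℝ) ≤ K * ε₁ := by positivity
      linarith
    have h4 := cut (K := K) (N := N) (H := H) (b := b) (M := M) (G := G) x
      (F := fun v => ob (k + s) g (fun _ => 0) v) (fun v => hg0 _ _) (fun v => hg1 _ _) hN1 hH1 hb0
      hM1 hGpos hG1 hfam
    refine h4.trans ?_
    have h5 : ((N : ℝ) - ((M + 1) * b : ℕ)) / N ≤ ε₀ := by
      rw [div_le_iff₀ hN0]
      push_cast
      have h6 : (b : ℝ) ≤ ε₀ * N := hb1.trans (mul_le_mul_of_nonneg_left (by exact_mod_cast hHN1) hε₀0.le)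
      linarith
    have h7 : ((H : ℝ) - (G * b : ℕ)) / H ≤ 2 * ε₀ := by
      rw [div_le_iff₀ hH0]
      push_cast
      linarith
    have h8 : (K : ℝ) * (((H : ℝ) - (G * b : ℕ)) / H) ≤ K * (2 * ε₀) :=
      mul_le_mul_of_nonneg_left h7 (Nat.cast_nonneg K)
    have h9 : (0 : ℝ) ≤ K * ε₀ := by positivity
    linarith

end Pool.Agent.J4H79.KT
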