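import Pool.Agent.J4H39.K9

/-!
# Project KT (helper39), phase 2, job P5 (helper79): means over boxes
-/

set_option autoImplicit false
set_option linter.all false

namespace Pool.Agent.J4H79.KT

open Pool.Agent.J4H39 Finset Filter Real

theorem mn_sub {a a' : ℤ} {b b' : ℕ} {f : ℤ → ℝ} (h0 : ∀ z, 0 ≤ f z) (h1 : ∀ z, f z ≤ 1)
    (ha : a ≤ a') (hb : a' + b' ≤ a + b) (hb0 : 1 ≤ b) :
    |mn a b f - mn a' b' f| ≤ ((b : ℝ) - b') / b := by
  have hbr : (0 : ℝ) < b := by exact_mod_cast hb0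
  obtain ⟨j, hj⟩ : ∃ j : ℕ, (j : ℤ) = a' - a := ⟨(a' - a).toNat, by omega⟩
  obtain ⟨r, hr⟩ : ∃ r : ℕ, b = j + (b' + r) := ⟨b - (j + b'), by omega⟩
  have e1 : ∑ v ∈ range b, f (a + (v : ℕ)) = ∑ v ∈ range j, f (a + (v : ℕ)) +
      (∑ v ∈ range b', f (a' + (v : ℕ)) + ∑ v ∈ range r, f (a' + ((b' + v : ℕ) : ℤ))) := by
    rw [hr, sum_range_add, sum_range_add]
    congr 1
    congr 1
    · apply sum_congr rfl
      intro v _
      congr 1
      push_cast
      omega
    · apply sum_congr rfl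
      intro v _
      congr 1
      push_cast
      omega
  obtain ⟨S, hS⟩ : ∃ S, S = ∑ v ∈ range b', f (a' + (v : ℕ)) := ⟨_, rfl⟩
  obtain ⟨R, hR⟩ : ∃ R, R = ∑ v ∈ range j, f (a + (v : ℕ)) + ∑ v ∈ range r, f (a' + ((b' + v : ℕ) : ℤ)) :=
    ⟨_, rfl⟩
  have hS0 : 0 ≤ S := by rw [hS]; exact sum_nonneg fun _ _ => h0 _
  have hS1 : S ≤ b' := by
    rw [hS]
    refine (sum_le_sum fun _ _ => h1 _).trans (le_of_eq ?_)
    rw [sum_const, card_range, nsmul_eq_mul, mul_one]
  have hR0 : 0 ≤ R := by rw [hR]; exact add_nonneg (sum_nonneg fun _ _ => h0 _) (sum_nonneg fun _ _ => h0 _)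
  have hR1 : R ≤ (b : ℝ) - b' := by
    have h2 : ∑ v ∈ range j, f (a + (v : ℕ)) ≤ j := by
      refine (sum_le_sum fun _ _ => h1 _).trans (le_of_eq ?_)
      rw [sum_const, card_range, nsmul_eq_mul, mul_one]
    have h3 : ∑ v ∈ range r, f (a' + ((b' + v : ℕ) : ℤ)) ≤ r := by
      refine (sum_le_sum fun _ _ => h1 _).trans (le_of_eq ?_)
      rw [sum_const, card_range, nsmul_eq_mul, mul_one]
    have hbc : (b : ℝ) = j + (b' + r) := by rw [hr]; push_cast; ring
    rw [hR, hbc]
    linarith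
  have e2 : mn a b f = (S + R) / b := by
    unfold mn
    rw [e1, hS, hR]
    congr 1
    ring
  have e3 : mn a' b' f = S / b' := by unfold mn; rw [hS]
  rw [e2, e3]
  rcases Nat.eq_zero_or_pos b' with h4 | h4
  · rw [h4] at hS1 hR1 ⊢
    simp only [Nat.cast_zero, div_zero, sub_zero] at hS1 hR1 ⊢
    rw [abs_of_nonneg (by positivity)]
    gcongr
    linarith
  · have hb' : (0 : ℝ) < b' := by exact_mod_cast h4
    have hbb : (b' : ℝ) ≤ b := by rw [hr]; push_cast; linarith [Nat.cast_nonneg (α := ℝ) j, Nat.cast_nonneg (α := ℝ) r]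
    have h5 : S / b' ≤ 1 := by rw [div_le_one hb']; exact hS1
    have h6 : 0 ≤ S / b' := by positivity
    have e4 : (S + R) / b - S / b' = (R - (b - b') * (S / b')) / b := by
      field_simp
      ring
    rw [e4, abs_div, abs_of_pos hbr]
    gcongr
    rw [abs_le]
    constructor
    · nlinarith
    · nlinarith

theorem mnK_nonneg : ∀ {K : ℕ} {a : Fin K → ℤ} {b : Fin K → ℕ} {F : (Fin K → ℤ) → ℝ},
    (∀ v, 0 ≤ F v) → 0 ≤ mnK K a b F := by
  intro K
  induction K with
  | zero => intro a b F h; exact h _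
  | succ K ih =>
    intro a b F h
    exact mn_nonneg fun z => ih fun v => h _

theorem mnK_le_one : ∀ {K : ℕ} {a : Fin K → ℤ} {b : Fin K → ℕ} {F : (Fin K → ℤ) → ℝ},
    (∀ v, F v ≤ 1) → mnK K a b F ≤ 1 := by
  intro K
  induction K with
  | zero => intro a b F h; exact h _
  | succ K ih =>
    intro a b F h
    exact mn_le_one fun z => ih fun v => h _

theorem mnK_congr : ∀ {K : ℕ} {a : Fin K → ℤ} {b : Fin K → ℕ} {F F' : (Fin K → ℤ) → ℝ},
    (∀ v, F v = F' v) → mnK K a b F = mnK K a b F' := by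
  intro K a b F F' h
  rw [show F = F' from funext h]

theorem mnK_sub : ∀ {K : ℕ} {a a' : ℤ} {b b' : ℕ} {F : (Fin K → ℤ) → ℝ}, (∀ v, 0 ≤ F v) →
    (∀ v, F v ≤ 1) → a ≤ a' → a' + b' ≤ a + b → 1 ≤ b →
    |mnK K (fun _ => a) (fun _ => b) F - mnK K (fun _ => a') (fun _ => b') F| ≤
      K * (((b : ℝ) - b') / b) := by
  intro K
  induction K with
  | zero => intro a a' b b' F h0 h1 ha hb hb0; simp [mnK]
  | succ K ih =>
    intro a a' b b' F h0 h1 ha hb hb0
    have hbr : (0 : ℝ) < b := by exact_mod_cast hb0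
    have hd : 0 ≤ ((b : ℝ) - b') / b := by
      have : (b' : ℝ) ≤ b := by exact_mod_cast (by omega : b' ≤ b)
      have : (0 : ℝ) ≤ (b : ℝ) - b' := by linarith
      positivity
    have h2 := mn_sub (a := a) (a' := a') (b := b) (b' := b')
      (f := fun z => mnK K (fun _ => a) (fun _ => b) (fun v => F (Fin.cons z v)))
      (fun z => mnK_nonneg fun v => h0 _) (fun z => mnK_le_one fun v => h1 _) ha hb hb0
    have h3 := mn_abs (a := a') (b := b')
      (f := fun z => mnK K (fun _ => a) (fun _ => b) (fun v => F (Fin.cons z v)))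
      (g := fun z => mnK K (fun _ => a') (fun _ => b') (fun v => F (Fin.cons z v)))
      (c := K * (((b : ℝ) - b') / b)) (by positivity)
      (fun z => ih (fun v => h0 _) (fun v => h1 _) ha hb hb0)
    have h4 := abs_sub_le (mn a b (fun z => mnK K (fun _ => a) (fun _ => b) (fun v => F (Fin.cons z v))))
      (mn a' b' (fun z => mnK K (fun _ => a) (fun _ => b) (fun v => F (Fin.cons z v))))
      (mn a' b' (fun z => mnK K (fun _ => a') (fun _ => b') (fun v => F (Fin.cons z v))))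
    show |mn a b (fun z => mnK K (fun _ => a) (fun _ => b) (fun v => F (Fin.cons z v))) -
      mn a' b' (fun z => mnK K (fun _ => a') (fun _ => b') (fun v => F (Fin.cons z v)))| ≤ _
    push_cast
    linarith

theorem mn_mnK : ∀ {K : ℕ} (a' : Fin K → ℤ) (b' : Fin K → ℕ) (a : ℤ) (b : ℕ)
    (F : ℤ → (Fin K → ℤ) → ℝ),
    mn a b (fun z => mnK K a' b' (F z)) = mnK K a' b' (fun v => mn a b (fun z => F z v)) := by
  intro K
  induction K with
  | zero => intro a' b' a b F; rfl
  | succ K ih =>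
    intro a' b' a b F
    show mn a b (fun z => mn (a' 0) (b' 0) (fun w => mnK K _ _ (fun v => F z (Fin.cons w v)))) =
      mn (a' 0) (b' 0) (fun w => mnK K _ _ (fun v => mn a b (fun z => F z (Fin.cons w v))))
    rw [mn_comm]
    apply mn_congr
    intro w
    exact ih _ _ _ _ _

theorem mn_blocks (A : ℤ) (G b : ℕ) (f : ℤ → ℝ) :
    mn A (G * b) f = mn 0 G (fun g => mn (A + g * b) b f) := by
  unfold mn
  rw [mul_comm G b, sum_block, ← sum_div, div_div]
  congr 1
  · apply sum_congr rfl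
    intro g _
    apply sum_congr rfl
    intro j _
    congr 1
    push_cast
    ring
  · push_cast; ring

theorem mnK_blocks : ∀ {K : ℕ} (A : ℤ) (G b : ℕ) (F : (Fin K → ℤ) → ℝ),
    mnK K (fun _ => A) (fun _ => G * b) F =
      mnK K (fun _ => 0) (fun _ => G) (fun γ => mnK K (fun i => A + γ i * b) (fun _ => b) F) := by
  intro K
  induction K with
  | zero => intro A G b F; rfl
  | succ K ih =>
    intro A G b F
    show mn A (G * b) (fun z => mnK K (fun _ => A) (fun _ => G * b) (fun v => F (Fin.cons z v))) =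
      mn 0 G (fun g => mnK K (fun _ => 0) (fun _ => G) (fun γ =>
        mnK (K + 1) (fun i => A + (Fin.cons g γ : Fin (K + 1) → ℤ) i * b) (fun _ => b) F))
    have h1 : ∀ z, mnK K (fun _ => A) (fun _ => G * b) (fun v => F (Fin.cons z v)) =
        mnK K (fun _ => 0) (fun _ => G) (fun γ => mnK K (fun i => A + γ i * b) (fun _ => b)
          (fun v => F (Fin.cons z v))) := fun z => ih A G b _
    rw [mn_congr h1, mn_blocks]
    apply mn_congr
    intro g
    rw [mn_mnK]
    apply mnK_congr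
    intro γ
    show _ = mn (A + (Fin.cons g γ : Fin (K + 1) → ℤ) 0 * b) b (fun z =>
      mnK K (fun i => A + (Fin.cons g γ : Fin (K + 1) → ℤ) i.succ * b) (fun _ => b)
        (fun v => F (Fin.cons z v)))
    simp only [Fin.cons_zero, Fin.cons_succ]

theorem mn_near {a : ℤ} {b : ℕ} {f : ℤ → ℝ} {c e : ℝ} (hb : 1 ≤ b)
    (h : ∀ z, a ≤ z → z < a + b → |f z - c| ≤ e) : |mn a b f - c| ≤ e := by
  have hbr : (0 : ℝ) < b := by exact_mod_cast hb
  have e1 : mn a b f - c = (∑ v ∈ range b, (f (a + (v : ℕ)) - c)) / b := by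
    unfold mn
    rw [sum_sub_distrib, sum_const, card_range, nsmul_eq_mul]
    field_simp
  rw [e1, abs_div, abs_of_pos hbr, div_le_iff₀ hbr]
  refine (abs_sum_le_sum_abs _ _).trans ?_
  have h2 : ∀ v ∈ range b, |f (a + (v : ℕ)) - c| ≤ e := by
    intro v hv
    rw [mem_range] at hv
    exact h _ (by omega) (by omega)
  refine (sum_le_sum h2).trans (le_of_eq ?_)
  rw [sum_const, card_range, nsmul_eq_mul, mul_comm]

theorem mnK_near : ∀ {K : ℕ} {a : Fin K → ℤ} {b : Fin K → ℕ} {F : (Fin K → ℤ) → ℝ} {c e : ℝ},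
    (∀ i, 1 ≤ b i) → (∀ v : Fin K → ℤ, (∀ i, a i ≤ v i ∧ v i < a i + b i) → |F v - c| ≤ e) →
    |mnK K a b F - c| ≤ e := by
  intro K
  induction K with
  | zero => intro a b F c e _ h; exact h _ fun i => i.elim0
  | succ K ih =>
    intro a b F c e hb h
    apply mn_near (hb 0)
    intro z hz1 hz2
    apply ih (fun i => hb i.succ)
    intro v hv
    apply h
    intro i
    refine Fin.cases ?_ (fun j => ?_) i
    · simp only [Fin.cons_zero]
      exact ⟨hz1, hz2⟩
    · simp only [Fin.cons_succ]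
      exact hv j

end Pool.Agent.J4H79.KT
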